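import Pool.Agent.H75.Kus.Cert

/-!
# Kusner's conjecture in dimension five: the Petty number of `X_5` is `10`
-/

set_option autoImplicit false
set_option maxRecDepth 100000

namespace Pool.Agent.Results.MP_ba4873_co.DimFive

open Finset

/-- The points `± e_i`. -/
def pt (q : Fin 5 × Bool) : Fin 5 → ℝ := fun i => if i = q.1 then (if q.2 then 1 else -1) else 0

theorem pt_injective : Function.Injective pt := by
  intro q r h
  obtain ⟨a, s⟩ := q
  obtain ⟨b, t⟩ := r
  have h1 := congrFun h a
  have h2 : a = b := by
    by_contra hab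
    have h1' := h1
    simp only [pt, if_true, if_neg hab] at h1'
    cases s <;> norm_num at h1'
  subst h2
  simp only [pt, if_true] at h1
  have h3 : s = t := by
    cases s <;> cases t <;> first | rfl | (norm_num at h1)
  rw [h3]

theorem pt_dist (q r : Fin 5 × Bool) (h : q ≠ r) : ∑ i, |pt q i - pt r i| = 2 := by
  obtain ⟨a, s⟩ := q
  obtain ⟨b, t⟩ := r
  by_cases hab : a = b
  · subst hab
    have hst : s ≠ t := fun h' => h (by rw [h'])
    rw [Finset.sum_eq_single a]
    · simp only [pt, if_true]
      cases s <;> cases t <;> first | exact absurd rfl hst | norm_num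
    · intro i _ hi
      simp [pt, hi]
    · simp
  · have h1 : ∀ i, |pt (a, s) i - pt (b, t) i| =
        (if i = a then 1 else 0) + (if i = b then (1 : ℝ) else 0) := by
      intro i
      by_cases hia : i = a
      · subst hia
        simp only [pt, if_true, if_neg hab]
        cases s <;> norm_num
      · by_cases hib : i = b
        · subst hib
          simp only [pt, if_true, if_neg hia]
          cases t <;> norm_num
        · simp [pt, hia, hib]
    rw [Finset.sum_congr rfl (fun i _ => h1 i), Finset.sum_add_distrib]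
    simp
    norm_num

/-- The kernel on eleven positions. -/
def tab : List (List ℤ) :=
  [[0, -202, -85, -52, -34, -10, 15, 37, 72, 182, 337],
   [0, 0, -69, -34, -13, -1, 12, 24, 24, 36, 182],
   [0, 0, 0, -28, -13, -1, 10, 13, 13, 24, 72],
   [0, 0, 0, 0, -13, -10, -7, 6, 13, 24, 37],
   [0, 0, 0, 0, 0, -10, -10, -7, 10, 12, 15],
   [0, 0, 0, 0, 0, 0, -10, -10, -1, -1, -10],
   [0, 0, 0, 0, 0, 0, 0, -13, -13, -13, -34],
   [0, 0, 0, 0, 0, 0, 0, 0, -28, -34, -52],
   [0, 0, 0, 0, 0, 0, 0, 0, 0, -69, -85],
   [0, 0, 0, 0, 0, 0, 0, 0, 0, 0, -202],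
   []]

/-- Lower bounds for the cuts of the kernel by size. -/
def low : List ℤ := [0, -64, -154, -215, -256, -276, -276, -256, -215, -154, -64, 0]

theorem tab_check : Pool.Agent.H75.Kus.check tab low 10 5 = true := by decide +kernel

/-- **The Petty number of the five-dimensional crosspolytope is `10`**: there are ten points of
`ℝ^5` with all pairwise `ℓ₁` distances equal to `2`, and never more than ten. -/
theorem result :
    (∃ S : Finset (Fin 5 → ℝ), S.card = 10 ∧
      ∀ x ∈ S, ∀ y ∈ S, x ≠ y → ∑ i, |x i - y i| = 2) ∧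
    ∀ S : Finset (Fin 5 → ℝ),
      (∀ x ∈ S, ∀ y ∈ S, x ≠ y → ∑ i, |x i - y i| = 2) → S.card ≤ 10 := by
  classical
  refine ⟨⟨univ.image pt, ?_, ?_⟩, ?_⟩
  · rw [card_image_of_injective _ pt_injective, card_univ]
    rfl
  · intro x hx y hy hxy
    obtain ⟨q, -, rfl⟩ := mem_image.mp hx
    obtain ⟨r, -, rfl⟩ := mem_image.mp hy
    exact pt_dist q r (fun h => hxy (by rw [h]))
  · intro S hS
    by_contra hcard
    push Not at hcard
    obtain ⟨S', hS', hc⟩ := exists_subset_card_eq (show 11 ≤ S.card by omega)
    have e : Fin 11 ≃ S' := (Finset.equivFinOfCardEq hc).symm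
    refine Pool.Agent.H75.Kus.check_sound tab low 10 5 (by norm_num) tab_check
      (fun a => (e a).val) ?_
    intro a b hab
    exact hS _ (hS' (e a).property) _ (hS' (e b).property)
      (fun h => hab (e.injective (Subtype.ext h)))

end Pool.Agent.Results.MP_ba4873_co.DimFive
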