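import Pool.Agent.H27.MV.HardyBound

/-!
# HardyBound
-/

set_option autoImplicit false

open Finset

namespace Pool.Agent.Results.MP_ba4873_co.HardyBound

open Pool.H27.MV.HardyBound

/-- Every `ℓ₁`-equilateral set `S ⊂ ℝ^d` (pairwise `ℓ₁`-distance `2`) satisfies
`|S| - 1 ≤ d * T(|S|)`, where `T(n) ≤ 5/2 + (log n)/2`; in particular at most eleven translates of
the five-dimensional crosspolytope can touch pairwise. -/
theorem result (d : ℕ) (S : Finset (Fin d → ℝ))
    (hS : ∀ x ∈ S, ∀ y ∈ S, x ≠ y → ∑ i, |x i - y i| = 2) :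
    (S.card : ℝ) - 1 ≤ d * T S.card ∧ T S.card ≤ 5 / 2 + Real.log S.card / 2 ∧
      (d = 5 → S.card ≤ 11) :=
  Pool.H27.MV.HardyBound.result d S hS

end Pool.Agent.Results.MP_ba4873_co.HardyBound
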