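import Pool.Agent.H3.MV.SymmetricSets

/-!
# SymmetricSets
-/

set_option autoImplicit false

namespace Pool.Agent.Results.MP_ba4873_co.SymmetricSets

open Pool.H3.MV.SymmetricSets

open Finset Matrix

/-- An `ℓ₁`-equilateral set in `ℝ^d` that is invariant under a group `Γ` of isometries of the
`ℓ₁` norm has at most `2d` points, provided that any two of its points can be interchanged by
`Γ`, or `Γ` is commutative and acts transitively on it, or, more generally, any two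
`Γ`-invariant kernels on it commute. -/
theorem result : ∀ d : ℕ, 1 ≤ d → ∀ S : Finset (Fin d → ℝ),
    (∀ x ∈ S, ∀ y ∈ S, x ≠ y → ∑ i, |x i - y i| = 2) →
    ∀ Γ : Subgroup (Equiv.Perm (Fin d → ℝ)),
      (∀ g ∈ Γ, ∀ x y, ∑ i, |g x i - g y i| = ∑ i, |x i - y i|) →
      (∀ g ∈ Γ, ∀ x ∈ S, g x ∈ S) →
      ((∀ x ∈ S, ∀ y ∈ S, ∃ g ∈ Γ, g x = y ∧ g y = x) ∨
        ((∀ g ∈ Γ, ∀ k ∈ Γ, g * k = k * g) ∧ ∀ x ∈ S, ∀ y ∈ S, ∃ g ∈ Γ, g x = y) ∨
        MultiplicityFree Γ S) →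
      S.card ≤ 2 * d :=
  Pool.H3.MV.SymmetricSets.result

end Pool.Agent.Results.MP_ba4873_co.SymmetricSets
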