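import Pool.Agent.H21.MV.ThreeValues

/-!
Hand-in: ThreeValues
-/

set_option autoImplicit false

open Finset

namespace Pool.Agent.Results.MP_ba4873_co.ThreeValues

/-- Let `S ⊂ ℝ^d` be `ℓ₁`-equilateral and let `v_i` be the number of distinct values of the `i`-th
coordinate on `S`.  Then `|S| ≤ max (d + 1) (∑ i, (v_i - 1))`; in particular `|S| ≤ 2d` when each
coordinate takes at most three values on `S`. -/
theorem result (d : ℕ) (S : Finset (Fin d → ℝ))
    (hS : ∀ x ∈ S, ∀ y ∈ S, x ≠ y → ∑ i, |x i - y i| = 2) :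
    (S.card ≤ d + 1 ∨ S.card + d ≤ ∑ i, (S.image (fun x => x i)).card) ∧
      (1 ≤ d → (∀ i, (S.image (fun x => x i)).card ≤ 3) → S.card ≤ 2 * d) :=
  Pool.H21.MV.ThreeValues.result d S hS

end Pool.Agent.Results.MP_ba4873_co.ThreeValues
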